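import Mathlib
import Pool.Agent.Y57.AK.Stm3

set_option autoImplicit false

/-! # AK-SIMP: interpolation on simplices -/

open Finset

namespace Pool.Agent.Y170.AK

open Pool.Agent.Y57.AK

variable {ι : Type} [Fintype ι] [DecidableEq ι]

/-- the Newton polynomial -/
noncomputable def nw (a : ι → ℕ) : MvPolynomial ι ℚ :=
  ∏ i, ∏ t ∈ range (a i), (MvPolynomial.X i - MvPolynomial.C (t : ℚ))

omit [DecidableEq ι] in
theorem nw_deg (a : ι → ℕ) : (nw a).totalDegree ≤ ∑ i, a i := by
  unfold nw
  refine (MvPolynomial.totalDegree_finsetProd _ _).trans (Finset.sum_le_sum fun i _ => ?_)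
  refine (MvPolynomial.totalDegree_finsetProd _ _).trans ?_
  calc ∑ t ∈ range (a i), (MvPolynomial.X i - MvPolynomial.C (t : ℚ)).totalDegree
      ≤ ∑ _t ∈ range (a i), 1 := by
        refine Finset.sum_le_sum fun t _ => (MvPolynomial.totalDegree_sub _ _).trans ?_
        rw [MvPolynomial.totalDegree_X, MvPolynomial.totalDegree_C]
        exact le_of_eq (max_eq_left (Nat.zero_le 1))
    _ = a i := by rw [Finset.sum_const, card_range, smul_eq_mul, mul_one]

omit [DecidableEq ι] in
theorem nw_eval (a : ι → ℕ) (r : ι → ℚ) :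
    MvPolynomial.eval r (nw a) = ∏ i, ∏ t ∈ range (a i), (r i - (t : ℚ)) := by
  unfold nw
  rw [map_prod]
  refine Finset.prod_congr rfl fun i _ => ?_
  rw [map_prod]
  refine Finset.prod_congr rfl fun t _ => ?_
  rw [map_sub, MvPolynomial.eval_X, MvPolynomial.eval_C]

omit [DecidableEq ι] in
theorem nw_zero (a r : ι → ℕ) (i : ι) (h : r i < a i) :
    MvPolynomial.eval (fun i => (r i : ℚ)) (nw a) = 0 := by
  rw [nw_eval]
  refine Finset.prod_eq_zero (Finset.mem_univ i) ?_
  exact Finset.prod_eq_zero (Finset.mem_range.2 h) (sub_self _)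

omit [DecidableEq ι] in
theorem nw_self (a : ι → ℕ) : MvPolynomial.eval (fun i => (a i : ℚ)) (nw a) ≠ 0 := by
  rw [nw_eval]
  refine Finset.prod_ne_zero_iff.2 fun i _ => Finset.prod_ne_zero_iff.2 fun t ht => ?_
  have h1 : t < a i := Finset.mem_range.1 ht
  have h2 : (t : ℚ) < a i := by exact_mod_cast h1
  exact sub_ne_zero.2 (ne_of_gt h2)

omit [DecidableEq ι] in
theorem exists_lt (a r : ι → ℕ) (h : ∑ i, r i ≤ ∑ i, a i) (hne : a ≠ r) : ∃ i, r i < a i := by
  by_contra hcon
  push Not at hcon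
  apply hne
  have h1 : ∑ i, a i = ∑ i, r i := le_antisymm (Finset.sum_le_sum fun i _ => hcon i) h
  funext i
  exact (Finset.sum_eq_sum_iff_of_le fun i _ => hcon i).1 h1 i (Finset.mem_univ i)

theorem newton (w : ℕ) (U : (ι → ℕ) → ℚ) (h : ℕ) (hw : h ≤ w + 1) :
    ∃ f : MvPolynomial ι ℚ, f.totalDegree ≤ w ∧ ∀ r : ι → ℕ, ∑ i, r i < h →
      MvPolynomial.eval (fun i => (r i : ℚ)) f = U r := by
  induction h with
  | zero => exact ⟨0, by simp, fun r hr => absurd hr (Nat.not_lt_zero _)⟩
  | succ h ih =>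
    obtain ⟨f, hf1, hf2⟩ := ih (by omega)
    let c : (ι → ℕ) → ℚ := fun a => (U a - MvPolynomial.eval (fun i => (a i : ℚ)) f) /
      MvPolynomial.eval (fun i => (a i : ℚ)) (nw a)
    refine ⟨f + ∑ a ∈ piAntidiag univ h, MvPolynomial.C (c a) * nw a, ?_, ?_⟩
    · refine (MvPolynomial.totalDegree_add _ _).trans (max_le hf1 ?_)
      refine MvPolynomial.totalDegree_finsetSum_le fun a ha => ?_
      refine (MvPolynomial.totalDegree_mul _ _).trans ?_
      rw [MvPolynomial.totalDegree_C, zero_add]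
      refine (nw_deg a).trans ?_
      rw [(mem_piAntidiag.1 ha).1]
      omega
    · intro r hr
      rw [map_add, map_sum]
      have hterm : ∀ a ∈ piAntidiag univ h, a ≠ r →
          MvPolynomial.eval (fun i => (r i : ℚ)) (MvPolynomial.C (c a) * nw a) = 0 := by
        intro a ha hne
        have h1 : ∑ i, a i = h := (mem_piAntidiag.1 ha).1
        obtain ⟨i, hi⟩ := exists_lt a r (by omega) hne
        rw [map_mul, nw_zero a r i hi, mul_zero]
      by_cases hrh : ∑ i, r i = h
      · have hmem : r ∈ piAntidiag univ h :=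
          mem_piAntidiag.2 ⟨hrh, fun i _ => Finset.mem_univ i⟩
        rw [Finset.sum_eq_single_of_mem r hmem hterm, map_mul, MvPolynomial.eval_C]
        have h2 := nw_self r
        show _ + (U r - MvPolynomial.eval (fun i => (r i : ℚ)) f) /
          MvPolynomial.eval (fun i => (r i : ℚ)) (nw r) * _ = _
        rw [div_mul_cancel₀ _ h2]
        ring
      · rw [Finset.sum_eq_zero, add_zero]
        · exact hf2 r (by omega)
        · intro a ha
          refine hterm a ha ?_
          rintro rfl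
          exact hrh (mem_piAntidiag.1 ha).1

omit [DecidableEq ι] in
/-- **simplices** -/
theorem t_SIMP : Pool.Agent.Y57.AK.S_SIMP := by
  intro ι _ _ w D hD u
  obtain ⟨f, hf1, hf2⟩ := newton w (fun r : ι → ℕ => u fun i => (r i : ℚ)) (w + 1) le_rfl
  refine ⟨f, hf1, fun d hd => ?_⟩
  obtain ⟨r, hr, rfl⟩ := hD d hd
  exact hf2 r (by omega)

end Pool.Agent.Y170.AK
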